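import Pool.Agent.TH614.HS.Defs2

set_option autoImplicit false

namespace Pool.Agent.TH759.HSB

open Polynomial Pool.Agent.TH614.HS

variable {L : Type} [Field L] (D : HD L)

theorem q0 : 0 < D.q := lt_of_lt_of_le (by norm_num) D.h5

theorem addk (k : ℕ) (x y : L) : (x + y) ^ (D.q ^ k) = x ^ (D.q ^ k) + y ^ (D.q ^ k) := by
  induction k with
  | zero => simp
  | succ k ih => rw [pow_succ, pow_mul, ih, D.add, ← pow_mul, ← pow_mul]

/-- the `q^k`-power map -/
def Fr (k : ℕ) : L →+* L where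
  toFun x := x ^ (D.q ^ k)
  map_one' := one_pow _
  map_mul' x y := mul_pow x y _
  map_zero' := zero_pow (pow_ne_zero _ (q0 D).ne')
  map_add' x y := addk D k x y

theorem Fr_apply (k : ℕ) (x : L) : Fr D k x = x ^ (D.q ^ k) := rfl

theorem Fr_one_apply (x : L) : Fr D 1 x = x ^ D.q := by rw [Fr_apply, pow_one]

theorem Fr_Fr (a b : ℕ) (x : L) : Fr D a (Fr D b x) = Fr D (a + b) x := by
  simp only [Fr_apply, ← pow_mul, ← pow_add, add_comm]

theorem Fr_inj (k : ℕ) : Function.Injective (Fr D k) := (Fr D k).injective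

/-- periodicity -/
theorem Fr_add6 {x : L} (h : x ^ (D.q ^ 6) = x) (k : ℕ) : Fr D (k + 6) x = Fr D k x := by
  rw [← Fr_Fr, Fr_apply D 6, h]

theorem isL_iff (x : L) : D.isL x ↔ x ≠ 0 ∧ Fr D 6 x = x ∧
    x * Fr D 3 x + Fr D 2 x * Fr D 5 x + Fr D 4 x * Fr D 1 x = 0 := by
  rw [Fr_one_apply]; exact Iff.rfl

theorem mem_iff (x P Y : L) : D.mem x P Y ↔ (Fr D 6 P = P ∧ Fr D 2 Y = Y) ∧
    Fr D 2 x * Fr D 4 P - Fr D 4 x * Fr D 2 P = Y * Fr D 3 x := Iff.rfl

theorem ncard_fix [IsAlgClosed L] : {c : L | c ^ D.q = c}.ncard = D.q := by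
  classical
  have hq : 1 < D.q := lt_of_lt_of_le (by norm_num) D.h5
  obtain ⟨p, hp⟩ := CharP.exists L
  have hdiv : p ∣ D.q := (CharP.cast_eq_zero_iff L p D.q).1 D.qz
  have hsep : (X ^ D.q - X : L[X]).Separable := galois_poly_separable p D.q hdiv
  have hne : (X ^ D.q - X : L[X]) ≠ 0 := FiniteField.X_pow_card_sub_X_ne_zero L hq
  have hdeg : (X ^ D.q - X : L[X]).natDegree = D.q := FiniteField.X_pow_card_sub_X_natDegree_eq L hq
  have h1 : Fintype.card ((X ^ D.q - X : L[X]).rootSet L) = (X ^ D.q - X : L[X]).natDegree :=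
    card_rootSet_eq_natDegree hsep (IsAlgClosed.splits _)
  have h2 : ((X ^ D.q - X : L[X]).rootSet L) = {c : L | c ^ D.q = c} := by
    ext c
    rw [mem_rootSet_of_ne hne]
    simp [sub_eq_zero]
  rw [← h2, ← Nat.card_coe_set_eq, Nat.card_eq_fintype_card, h1, hdeg]

end Pool.Agent.TH759.HSB
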