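import Pool.Agent.TH759.J3622a

set_option autoImplicit false

namespace Pool.Agent.TH759.J3622

open Polynomial Pool.Agent.TH614.HS Pool.Agent.TH759.HSB

/-- counting with fibres of constant size -/
theorem ncard_fib {α β : Type*} {A : Set α} (hA : A.Finite) (f : α → β) (m : ℕ)
    (hf : ∀ a ∈ A, {b ∈ A | f b = f a}.ncard = m) : A.ncard = (f '' A).ncard * m := by
  classical
  obtain ⟨s, rfl⟩ := hA.exists_finset_coe
  have h1 : (f '' (s : Set α)).ncard = (s.image f).card := by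
    rw [← Finset.coe_image, Set.ncard_coe_finset]
  rw [Set.ncard_coe_finset, h1, Finset.card_eq_sum_card_image f s]
  rw [Finset.sum_const_nat (m := m)]
  intro b hb
  obtain ⟨a, ha, rfl⟩ := Finset.mem_image.1 hb
  have := hf a (by simpa using ha)
  rw [← this]
  have e : {b ∈ (s : Set α) | f b = f a} = ((s.filter (fun x => f x = f a) : Finset α) : Set α) := by
    ext x; simp
  rw [e, Set.ncard_coe_finset]

section
variable {F : Type} [Field F] [Fintype F] {q : ℕ}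
variable (D : HD (AlgebraicClosure F))

theorem Fr_algebraMap (hF : Fintype.card F = q ^ 2) (hD : D.q = q) (c : F) :
    Fr D 2 (algebraMap F (AlgebraicClosure F) c) = algebraMap F (AlgebraicClosure F) c := by
  rw [Fr_apply, hD, ← map_pow, ← hF, FiniteField.pow_card]

/-- the subfield of order `q^2` -/
theorem exists_algebraMap (hF : Fintype.card F = q ^ 2) (hD : D.q = q) {c : AlgebraicClosure F}
    (hc : Fr D 2 c = c) : ∃ a : F, algebraMap F (AlgebraicClosure F) a = c := by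
  classical
  have hq : 1 < D.q := lt_of_lt_of_le (by norm_num) D.h5
  have hq2 : 1 < D.q ^ 2 := Nat.one_lt_pow (by norm_num) hq
  have hne : (X ^ (D.q ^ 2) - X : (AlgebraicClosure F)[X]) ≠ 0 :=
    FiniteField.X_pow_card_sub_X_ne_zero _ hq2
  have hdeg : (X ^ (D.q ^ 2) - X : (AlgebraicClosure F)[X]).natDegree = D.q ^ 2 :=
    FiniteField.X_pow_card_sub_X_natDegree_eq _ hq2
  set R := (X ^ (D.q ^ 2) - X : (AlgebraicClosure F)[X]).roots.toFinset with hR
  have hcard : R.card ≤ D.q ^ 2 := by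
    calc R.card ≤ (X ^ (D.q ^ 2) - X : (AlgebraicClosure F)[X]).roots.card :=
          Multiset.toFinset_card_le _
      _ ≤ _ := (card_roots' _).trans hdeg.le
  have hmemR : ∀ y : AlgebraicClosure F, y ∈ R ↔ Fr D 2 y = y := by
    intro y
    rw [hR, Multiset.mem_toFinset, mem_roots hne, IsRoot.def, Fr_apply]
    simp [sub_eq_zero]
  set I : Finset (AlgebraicClosure F) :=
    (Finset.univ : Finset F).image (algebraMap F (AlgebraicClosure F)) with hI
  have hIcard : I.card = D.q ^ 2 := by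
    rw [hI, Finset.card_image_of_injective _ (algebraMap F (AlgebraicClosure F)).injective,
      Finset.card_univ, hF, hD]
  have hsub : I ⊆ R := by
    intro y hy
    obtain ⟨a, -, rfl⟩ := Finset.mem_image.1 hy
    exact (hmemR _).2 (Fr_algebraMap D hF hD a)
  have hEq : I = R := Finset.eq_of_subset_of_card_le hsub (by rw [hIcard]; exact hcard)
  have : c ∈ I := by rw [hEq]; exact (hmemR _).2 hc
  obtain ⟨a, -, ha⟩ := Finset.mem_image.1 this
  exact ⟨a, ha⟩

/-- the data of the isometry -/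
structure PD (Ψ : (Fin 4 → F) → AlgebraicClosure F × AlgebraicClosure F) : Prop where
  inj : Function.Injective Ψ
  surj : ∀ P Y, D.Pt P Y → ∃ v, Ψ v = (P, Y)
  pt : ∀ v, D.Pt (Ψ v).1 (Ψ v).2
  add : ∀ v w, Ψ (v + w) = Ψ v + Ψ w
  smul : ∀ (c : F) v, Ψ (c • v) = (algebraMap F (AlgebraicClosure F) c * (Ψ v).1,
        algebraMap F (AlgebraicClosure F) c * (Ψ v).2)

variable {D}
variable {Ψ : (Fin 4 → F) → AlgebraicClosure F × AlgebraicClosure F}

theorem PD.zero (h : PD D Ψ) : Ψ 0 = 0 := by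
  have := h.add 0 0
  rw [add_zero] at this
  exact left_eq_add.1 this

theorem mem_lin_add {x P Y P' Y' : AlgebraicClosure F} (h : D.mem x P Y) (h' : D.mem x P' Y') :
    D.mem x (P + P') (Y + Y') := by
  rw [mem_iff] at *
  obtain ⟨⟨a1, a2⟩, a3⟩ := h
  obtain ⟨⟨b1, b2⟩, b3⟩ := h'
  refine ⟨⟨by rw [map_add, a1, b1], by rw [map_add, a2, b2]⟩, ?_⟩
  rw [map_add, map_add]
  linear_combination a3 + b3

theorem mem_lin_smul (hF : Fintype.card F = D.q ^ 2) {x P Y : AlgebraicClosure F} (c : F)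
    (h : D.mem x P Y) : D.mem x (algebraMap F (AlgebraicClosure F) c * P)
      (algebraMap F (AlgebraicClosure F) c * Y) := by
  have h2 := Fr_algebraMap D hF rfl c
  have h4 : Fr D 4 (algebraMap F (AlgebraicClosure F) c) = algebraMap F (AlgebraicClosure F) c := by
    rw [show (4 : ℕ) = 2 + 2 from rfl, ← Fr_Fr, h2, h2]
  have h6 : Fr D 6 (algebraMap F (AlgebraicClosure F) c) = algebraMap F (AlgebraicClosure F) c := by
    rw [show (6 : ℕ) = 2 + 4 from rfl, ← Fr_Fr, h4, h2]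
  rw [mem_iff] at *
  obtain ⟨⟨a1, a2⟩, a3⟩ := h
  refine ⟨⟨by rw [map_mul, a1, h6], by rw [map_mul, a2, h2]⟩, ?_⟩
  rw [map_mul, map_mul, h2, h4]
  linear_combination (algebraMap F (AlgebraicClosure F) c) * a3

/-- the generator as a subspace -/
def Lx (hF : Fintype.card F = D.q ^ 2) (h : PD D Ψ) (x : AlgebraicClosure F) :
    Submodule F (Fin 4 → F) where
  carrier := {v | D.mem x (Ψ v).1 (Ψ v).2}
  add_mem' {v w} hv hw := by
    show D.mem x (Ψ (v + w)).1 (Ψ (v + w)).2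
    rw [h.add]
    exact mem_lin_add hv hw
  zero_mem' := by
    show D.mem x (Ψ 0).1 (Ψ 0).2
    rw [h.zero, mem_iff]
    simp
  smul_mem' c v hv := by
    show D.mem x (Ψ (c • v)).1 (Ψ (c • v)).2
    rw [h.smul]
    exact mem_lin_smul hF c hv

theorem mem_Lx {hF : Fintype.card F = D.q ^ 2} {h : PD D Ψ} {x : AlgebraicClosure F}
    {v : Fin 4 → F} : v ∈ Lx hF h x ↔ D.mem x (Ψ v).1 (Ψ v).2 := Iff.rfl

theorem mem_self {x : AlgebraicClosure F} (hx : D.isL x) : D.mem x x 0 := by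
  rw [isL_iff] at hx
  rw [mem_iff]
  refine ⟨⟨hx.2.1, map_zero _⟩, ?_⟩
  ring

theorem sub_fix {x P : AlgebraicClosure F} (hx : D.isL x) (h : D.mem x P 0) :
    Fr D 2 (P / x) = P / x := by
  rw [isL_iff] at hx
  rw [mem_iff] at h
  have hf : ∀ k, Fr D k x ≠ 0 := fun k => (_root_.map_ne_zero _).2 hx.1
  have h2 : Fr D 2 (Fr D 2 (P / x)) = Fr D 2 (P / x) := by
    rw [Fr_Fr, map_div₀, map_div₀, div_eq_div_iff (hf _) (hf _)]
    linear_combination h.2
  exact Fr_inj D 2 h2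

theorem finrank_Lx (hF : Fintype.card F = D.q ^ 2) (h : PD D Ψ) {x : AlgebraicClosure F}
    (hx : D.isL x) : Module.finrank F (Lx hF h x) = 2 := by
  obtain ⟨P, hP⟩ := exists_pt D hx
  have hx0 : x ≠ 0 := hx.1
  obtain ⟨v0, hv0⟩ := h.surj x 0 (mem_self hx).1
  obtain ⟨v1, hv1⟩ := h.surj P 1 hP.1
  have jinj := (algebraMap F (AlgebraicClosure F)).injective
  have hli : LinearIndependent F ![v0, v1] := by
    rw [LinearIndependent.pair_iff]
    intro s t hst
    have e := congrArg Ψ hst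
    rw [h.add, h.smul, h.smul, h.zero, hv0, hv1] at e
    have e2 := congrArg Prod.snd e
    have e1 := congrArg Prod.fst e
    simp only [Prod.snd_add, Prod.fst_add, mul_zero, mul_one, zero_add, Prod.snd_zero,
      Prod.fst_zero] at e1 e2
    have ht : t = 0 := by simpa using e2
    rw [ht, map_zero, zero_mul, add_zero] at e1
    have hs : s = 0 := by
      rcases mul_eq_zero.1 e1 with h | h
      · simpa using h
      · exact absurd h hx0
    exact ⟨hs, ht⟩
  have hspan : Lx hF h x = Submodule.span F (Set.range ![v0, v1]) := by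
    have hr : Set.range ![v0, v1] = {v0, v1} := by
      rw [Matrix.range_cons, Matrix.range_cons, Matrix.range_empty, Set.union_empty]
      rfl
    rw [hr]
    apply le_antisymm
    · intro v hv
      rw [Submodule.mem_span_pair]
      have hY : Fr D 2 (Ψ v).2 = (Ψ v).2 := (h.pt v).2
      obtain ⟨b, hb⟩ := exists_algebraMap D hF rfl hY
      have hv' : v - b • v1 ∈ Lx hF h x := by
        refine Submodule.sub_mem _ hv (Submodule.smul_mem _ _ ?_)
        rw [mem_Lx, hv1]; exact hP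
      have hadd : Ψ (v - b • v1) + Ψ (b • v1) = Ψ v := by
        rw [← h.add, sub_add_cancel]
      have h2 : (Ψ (v - b • v1)).2 = 0 := by
        have := congrArg Prod.snd hadd
        rw [h.smul, hv1] at this
        simp only [Prod.snd_add, mul_one, hb] at this
        exact (add_eq_right.1 this)
      rw [mem_Lx, h2] at hv'
      have hfix := sub_fix hx hv'
      obtain ⟨a, ha⟩ := exists_algebraMap D hF rfl hfix
      refine ⟨a, b, ?_⟩
      have hva : Ψ (a • v0) = Ψ (v - b • v1) := by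
        rw [h.smul, hv0]
        refine Prod.ext ?_ ?_
        · simp only [ha]; field_simp
        · simp only [mul_zero, h2]
      have := h.inj hva
      rw [this, sub_add_cancel]
    · rw [Submodule.span_le]
      intro v hv
      rcases hv with rfl | rfl
      · show D.mem x (Ψ v).1 (Ψ v).2
        rw [hv0]; exact mem_self hx
      · show D.mem x (Ψ v).1 (Ψ v).2
        rw [hv1]; exact hP
  rw [hspan, finrank_span_eq_card hli]
  simp

theorem Lx_eq_iff (hF : Fintype.card F = D.q ^ 2) (h : PD D Ψ) {x x' : AlgebraicClosure F}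
    (hx : D.isL x) (hx' : D.isL x') :
    Lx hF h x' = Lx hF h x ↔ ∃ c, c ^ D.q = c ∧ c ≠ 0 ∧ x' = c * x := by
  constructor
  · intro he
    obtain ⟨P, hP⟩ := exists_pt D hx
    obtain ⟨v0, hv0⟩ := h.surj x 0 (mem_self hx).1
    obtain ⟨v1, hv1⟩ := h.surj P 1 hP.1
    have m0 : v0 ∈ Lx hF h x' := by
      rw [he, mem_Lx, hv0]; exact mem_self hx
    have m1 : v1 ∈ Lx hF h x' := by
      rw [he, mem_Lx, hv1]; exact hP
    rw [mem_Lx, hv0] at m0
    rw [mem_Lx, hv1] at m1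
    exact eq_smul_of D hx hx' m0 hP m1
  · rintro ⟨c, hc, h0, rfl⟩
    ext v
    rw [mem_Lx, mem_Lx, mem_smul_iff D hc h0]

omit [Fintype F] in
theorem fix_card : {c : AlgebraicClosure F | c ^ D.q = c ∧ c ≠ 0}.ncard = D.q - 1 := by
  have h1 : {c : AlgebraicClosure F | c ^ D.q = c ∧ c ≠ 0} =
      {c : AlgebraicClosure F | c ^ D.q = c} \ {0} := by
    ext c; simp
  rw [h1, Set.ncard_diff_singleton_of_mem, ncard_fix]
  show (0 : AlgebraicClosure F) ^ D.q = 0
  exact zero_pow (q0 D).ne'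

/-- number of subspaces through an isotropic vector -/
theorem count (hF : Fintype.card F = D.q ^ 2) (h : PD D Ψ) (Pos : AlgebraicClosure F → Prop)
    (hp : ∀ x c, D.isL x → c ^ D.q = c → c ≠ 0 → (Pos (c * x) ↔ Pos x))
    (v : Fin 4 → F)
    (hc : {x : AlgebraicClosure F | D.isL x ∧ D.mem x (Ψ v).1 (Ψ v).2 ∧ Pos x}.ncard
      = (D.q ^ 2 - 1) / 2) :
    {M : Submodule F (Fin 4 → F) | (∃ x, D.isL x ∧ Pos x ∧ M = Lx hF h x) ∧ v ∈ M}.ncard
      = (D.q + 1) / 2 := by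
  obtain ⟨k, hk⟩ : ∃ k, D.q = 4 * k + 1 := ⟨D.q / 4, by have := D.h4; omega⟩
  have h5 := D.h5
  have hk1 : 1 ≤ k := by omega
  have e1 : (D.q ^ 2 - 1) / 2 = (2 * k + 1) * (4 * k) := by
    have : D.q ^ 2 = 2 * ((2 * k + 1) * (4 * k)) + 1 := by rw [hk]; ring
    omega
  have e2 : (D.q + 1) / 2 = 2 * k + 1 := by omega
  set A := {x : AlgebraicClosure F | D.isL x ∧ D.mem x (Ψ v).1 (Ψ v).2 ∧ Pos x} with hA
  have hfin : A.Finite := by
    apply Set.finite_of_ncard_ne_zero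
    rw [hc, e1]
    positivity
  have hfib := ncard_fib hfin (fun x => Lx hF h x) (D.q - 1) (by
    intro a ha
    have h1 : {b ∈ A | Lx hF h b = Lx hF h a} =
        (fun c => c * a) '' {c : AlgebraicClosure F | c ^ D.q = c ∧ c ≠ 0} := by
      ext b
      constructor
      · rintro ⟨hb, hb2⟩
        obtain ⟨c, h1, h2, h3⟩ := (Lx_eq_iff hF h ha.1 hb.1).1 hb2
        exact ⟨c, ⟨h1, h2⟩, h3.symm⟩
      · rintro ⟨c, ⟨h1, h2⟩, rfl⟩
        refine ⟨⟨isL_smul D h1 h2 ha.1, (mem_smul_iff D h1 h2).2 ha.2.1,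
          (hp a c ha.1 h1 h2).2 ha.2.2⟩, ?_⟩
        exact (Lx_eq_iff hF h ha.1 (isL_smul D h1 h2 ha.1)).2 ⟨c, h1, h2, rfl⟩
    rw [h1, Set.ncard_image_of_injective _ (mul_left_injective₀ ha.1.1), fix_card])
  have himg : (fun x => Lx hF h x) '' A =
      {M : Submodule F (Fin 4 → F) | (∃ x, D.isL x ∧ Pos x ∧ M = Lx hF h x) ∧ v ∈ M} := by
    ext M
    constructor
    · rintro ⟨x, hx, rfl⟩
      exact ⟨⟨x, hx.1, hx.2.2, rfl⟩, hx.2.1⟩
    · rintro ⟨⟨x, h1, h2, rfl⟩, h3⟩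
      exact ⟨x, ⟨h1, h3, h2⟩, rfl⟩
  rw [himg, hc, e1] at hfib
  rw [e2]
  have hk4 : D.q - 1 = 4 * k := by omega
  rw [hk4] at hfib
  exact (Nat.eq_of_mul_eq_mul_right (by positivity) hfib).symm

end

/-- a primitive root of unity of order `q^2-q+1` -/
theorem exists_prim {L : Type} [Field L] [IsAlgClosed L] (D : HD L) :
    ∃ a : L, IsPrimitiveRoot a (D.q ^ 2 - D.q + 1) := by
  have hle : D.q ≤ D.q ^ 2 := Nat.le_self_pow (by norm_num) _
  have hcast : ((D.q ^ 2 - D.q + 1 : ℕ) : L) = 1 := by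
    rw [Nat.cast_add, Nat.cast_sub hle, Nat.cast_pow, D.qz]
    simp
  haveI : NeZero ((D.q ^ 2 - D.q + 1 : ℕ) : L) := ⟨by rw [hcast]; exact one_ne_zero⟩
  have hdeg : (cyclotomic (D.q ^ 2 - D.q + 1) L).degree ≠ 0 := by
    rw [degree_cyclotomic]
    have : 0 < Nat.totient (D.q ^ 2 - D.q + 1) := Nat.totient_pos.2 (Nat.succ_pos _)
    exact_mod_cast this.ne'
  obtain ⟨a, ha⟩ := IsAlgClosed.exists_root _ hdeg
  exact ⟨a, isRoot_cyclotomic_iff.1 ha⟩

/-- the powers of the root of unity -/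
theorem prim_pows {L : Type} [Field L] (D : HD L) {a : L} (ha : a ^ (D.q ^ 2 - D.q + 1) = 1) :
    a ≠ 0 ∧ a * Fr D 3 a = 1 ∧ Fr D 2 a * Fr D 4 a = Fr D 3 a ∧ Fr D 6 a = a := by
  have hle : D.q ≤ D.q ^ 2 := Nat.le_self_pow (by norm_num) _
  have hdvd : ∀ m, (D.q ^ 2 - D.q + 1) ∣ m → a ^ m = 1 := by
    rintro m ⟨t, rfl⟩
    rw [pow_mul, ha, one_pow]
  have h0 : a ≠ 0 := by
    rintro rfl
    rw [zero_pow (Nat.succ_ne_zero _)] at ha
    exact zero_ne_one ha
  obtain ⟨m, hm⟩ : ∃ m, D.q ^ 2 = D.q + m := ⟨D.q ^ 2 - D.q, by omega⟩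
  have hn : D.q ^ 2 - D.q + 1 = m + 1 := by omega
  rw [hn] at hdvd ha
  have i1 : D.q ^ 3 + 1 = (m + 1) * (D.q + 1) := by
    zify at hm ⊢
    have : (m : ℤ) = D.q ^ 2 - D.q := by linarith
    rw [this]; ring
  have i2 : 1 + D.q ^ 2 + D.q ^ 4 = (m + 1) * (D.q ^ 2 + D.q + 1) := by
    zify at hm ⊢
    have : (m : ℤ) = D.q ^ 2 - D.q := by linarith
    rw [this]; ring
  have e1 : a * Fr D 3 a = 1 := by
    rw [Fr_apply, ← pow_succ', i1]
    exact hdvd _ ⟨_, rfl⟩
  have e2 : a * (Fr D 2 a * Fr D 4 a) = 1 := by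
    rw [Fr_apply, Fr_apply]
    have : a * (a ^ D.q ^ 2 * a ^ D.q ^ 4) = a ^ (1 + D.q ^ 2 + D.q ^ 4) := by
      rw [pow_add, pow_add, pow_one]; ring
    rw [this, i2]
    exact hdvd _ ⟨_, rfl⟩
  refine ⟨h0, e1, mul_left_cancel₀ h0 (by rw [e1, e2]), ?_⟩
  have e3 : Fr D 3 a * Fr D 6 a = 1 := by
    have := congrArg (Fr D 3) e1
    rw [map_mul, Fr_Fr, map_one] at this
    exact this
  have h3 : Fr D 3 a ≠ 0 := (_root_.map_ne_zero _).2 h0
  exact mul_left_cancel₀ h3 (by rw [e3, mul_comm, e1])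

theorem TRANS : S_TRANS := by
  intro hM hHD hI F _ _ q hF h4 h3
  obtain ⟨D, rfl⟩ := hHD F q hF h4 h3
  obtain ⟨Pos, hp1, hp2, hp3⟩ := hM (AlgebraicClosure F) D
  obtain ⟨Ψ, i1, i2, i3, i4, i5, i6⟩ := hI F D.q hF D rfl
  have h : PD D Ψ := ⟨i1, i2, i3, i4, i5⟩
  obtain ⟨a, ha⟩ := exists_prim D
  obtain ⟨a0, a3, a24, a6⟩ := prim_pows D ha.pow_eq_one
  have jinj := (algebraMap F (AlgebraicClosure F)).injective
  -- multiplication by `a` and its inverse
  have hex : ∀ b : AlgebraicClosure F, Fr D 6 b = b → ∀ v, ∃ w, Ψ w = (b * (Ψ v).1, (Ψ v).2) := by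
    intro b hb v
    apply h.surj
    refine ⟨?_, (h.pt v).2⟩
    show Fr D 6 (b * (Ψ v).1) = _
    rw [map_mul, hb, show Fr D 6 (Ψ v).1 = (Ψ v).1 from (h.pt v).1]
  have ai6 : Fr D 6 a⁻¹ = a⁻¹ := by rw [map_inv₀, a6]
  choose g hg using hex a a6
  choose g' hg' using hex a⁻¹ ai6
  have gg' : ∀ v, g' (g v) = v := by
    intro v
    apply h.inj
    rw [hg', hg]
    refine Prod.ext ?_ rfl
    show a⁻¹ * (a * (Ψ v).1) = (Ψ v).1
    rw [inv_mul_cancel_left₀ a0]
  have g'g : ∀ v, g (g' v) = v := by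
    intro v
    apply h.inj
    rw [hg, hg']
    refine Prod.ext ?_ rfl
    show a * (a⁻¹ * (Ψ v).1) = (Ψ v).1
    rw [mul_inv_cancel_left₀ a0]
  have gadd : ∀ v w, g (v + w) = g v + g w := by
    intro v w
    apply h.inj
    rw [hg, h.add, h.add, hg, hg]
    refine Prod.ext ?_ rfl
    show a * ((Ψ v).1 + (Ψ w).1) = a * (Ψ v).1 + a * (Ψ w).1
    ring
  let G : (Fin 4 → F) ≃+ (Fin 4 → F) :=
    { toFun := g, invFun := g', left_inv := gg', right_inv := g'g, map_add' := gadd }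
  have hG : ∀ v, Ψ (G v) = (a * (Ψ v).1, (Ψ v).2) := hg
  have hGk : ∀ k v, Ψ ((⇑G)^[k] v) = (a ^ k * (Ψ v).1, (Ψ v).2) := by
    intro k
    induction k with
    | zero => intro v; simp
    | succ k ih =>
      intro v
      rw [Function.iterate_succ_apply', hG, ih]
      refine Prod.ext ?_ rfl
      show a * (a ^ k * (Ψ v).1) = a ^ (k + 1) * (Ψ v).1
      ring
  -- the Hermitian form
  have hform : ∀ v : Fin 4 → F, (∑ i, v i ^ (D.q + 1)) = ∑ i, v i * v i ^ D.q := by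
    intro v
    exact Finset.sum_congr rfl (fun i _ => by ring)
  refine ⟨{M | ∃ x, D.isL x ∧ Pos x ∧ M = Lx hF h x}, G, RingEquiv.refl F, ?_, ?_, ?_, ?_, ?_, ?_, ?_⟩
  · rintro M ⟨x, hx, -, rfl⟩
    refine ⟨finrank_Lx hF h hx, ?_⟩
    intro v hv w hw
    apply jinj
    rw [i6, map_zero]
    exact orth D hx hv hw
  · intro P hP hiso
    obtain ⟨v, hv0, hv⟩ := finrank_eq_one_iff'.1 hP
    have hv0' : (v : Fin 4 → F) ≠ 0 := by simpa using hv0
    have hle : ∀ M : Submodule F (Fin 4 → F), P ≤ M ↔ (v : Fin 4 → F) ∈ M := by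
      intro M
      constructor
      · intro h1; exact h1 v.2
      · intro h1 w hw
        obtain ⟨c, hc⟩ := hv ⟨w, hw⟩
        have : c • (v : Fin 4 → F) = w := congrArg Subtype.val hc
        rw [← this]
        exact M.smul_mem c h1
    have hset : {M : Submodule F (Fin 4 → F) |
          M ∈ {M : Submodule F (Fin 4 → F) | ∃ x, D.isL x ∧ Pos x ∧ M = Lx hF h x} ∧ P ≤ M} =
        {M : Submodule F (Fin 4 → F) | (∃ x, D.isL x ∧ Pos x ∧ M = Lx hF h x) ∧
          (v : Fin 4 → F) ∈ M} := by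
      ext M
      simp only [Set.mem_setOf_eq, hle]
    rw [hset]
    apply count hF h Pos hp1
    apply hp3
    · refine ⟨h.pt _, ?_⟩
      have e := i6 v v
      rw [← hform, hiso v v.2, map_zero] at e
      exact e.symm
    · by_contra hcon
      push Not at hcon
      apply hv0'
      apply h.inj
      rw [h.zero]
      exact Prod.ext hcon.1 hcon.2
  · intro c v
    apply h.inj
    show Ψ (G (c • v)) = Ψ (c • G v)
    rw [hG, h.smul, h.smul, hG]
    refine Prod.ext ?_ rfl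
    show a * (_ * (Ψ v).1) = _ * (a * (Ψ v).1)
    ring
  · intro v
    have e : (∑ i, G v i ^ (D.q + 1)) = ∑ i, v i ^ (D.q + 1) := by
      rw [hform, hform]
      apply jinj
      rw [i6, i6, hG]
      show (Ψ v).2 * (Ψ v).2 ^ D.q + ((a * (Ψ v).1) * Fr D 3 (a * (Ψ v).1)
        + Fr D 2 (a * (Ψ v).1) * Fr D 5 (a * (Ψ v).1) + Fr D 4 (a * (Ψ v).1) * (a * (Ψ v).1) ^ D.q)
        = (Ψ v).2 * (Ψ v).2 ^ D.q + ((Ψ v).1 * Fr D 3 (Ψ v).1
        + Fr D 2 (Ψ v).1 * Fr D 5 (Ψ v).1 + Fr D 4 (Ψ v).1 * (Ψ v).1 ^ D.q)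
      rw [← Fr_one_apply, ← Fr_one_apply, ← Fr_one_apply]
      simp only [map_mul]
      have b1 : Fr D 2 a * Fr D 5 a = 1 := by
        have := congrArg (Fr D 2) a3
        rw [map_mul, Fr_Fr, map_one] at this
        exact this
      have b2 : Fr D 4 a * Fr D 1 a = 1 := by
        have := congrArg (Fr D 1) a3
        rw [map_mul, Fr_Fr, map_one] at this
        rw [mul_comm]; exact this
      linear_combination ((Ψ v).1 * Fr D 3 (Ψ v).1) * a3 + (Fr D 2 (Ψ v).1 * Fr D 5 (Ψ v).1) * b1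
        + (Fr D 4 (Ψ v).1 * Fr D 1 (Ψ v).1) * b2
    rw [e]
  · rintro M ⟨x, hx, hpos, rfl⟩
    have hax : D.isL (a * x) := by
      rw [isL_iff] at hx ⊢
      obtain ⟨h1, h2, h3⟩ := hx
      have b1 : Fr D 2 a * Fr D 5 a = 1 := by
        have := congrArg (Fr D 2) a3
        rw [map_mul, Fr_Fr, map_one] at this
        exact this
      have b2 : Fr D 4 a * Fr D 1 a = 1 := by
        have := congrArg (Fr D 1) a3
        rw [map_mul, Fr_Fr, map_one] at this
        rw [mul_comm]; exact this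
      refine ⟨mul_ne_zero a0 h1, by rw [map_mul, a6, h2], ?_⟩
      simp only [map_mul]
      linear_combination (x * Fr D 3 x) * a3 + (Fr D 2 x * Fr D 5 x) * b1
        + (Fr D 4 x * Fr D 1 x) * b2 + h3
    refine ⟨Lx hF h (a * x), ⟨a * x, hax, (hp2 x a hx ha.pow_eq_one).2 hpos, rfl⟩, ?_⟩
    have key : ∀ v, G v ∈ Lx hF h (a * x) ↔ v ∈ Lx hF h x := by
      intro v
      rw [mem_Lx, mem_Lx, hG, mem_iff, mem_iff]
      have ha3 : Fr D 3 a ≠ 0 := (_root_.map_ne_zero _).2 a0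
      have p1 := (h.pt v).1
      have p2 := (h.pt v).2
      simp only [map_mul]
      constructor
      · rintro ⟨-, h2⟩
        refine ⟨⟨p1, p2⟩, mul_left_cancel₀ ha3 ?_⟩
        linear_combination h2 - (Fr D 2 x * Fr D 4 (Ψ v).1 - Fr D 4 x * Fr D 2 (Ψ v).1) * a24
      · rintro ⟨-, h2⟩
        refine ⟨⟨by rw [a6]; exact congrArg (a * ·) p1, p2⟩, ?_⟩
        linear_combination (Fr D 3 a) * h2
          + (Fr D 2 x * Fr D 4 (Ψ v).1 - Fr D 4 x * Fr D 2 (Ψ v).1) * a24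
    ext w
    constructor
    · intro hw
      refine ⟨G.symm w, ?_, G.apply_symm_apply w⟩
      have : G (G.symm w) ∈ Lx hF h (a * x) := by rw [G.apply_symm_apply]; exact hw
      exact (key _).1 this
    · rintro ⟨v, hv, rfl⟩
      exact (key v).2 hv
  · intro v
    refine ⟨1, ?_⟩
    apply h.inj
    rw [hGk, ha.pow_eq_one, one_mul, one_smul]
  · intro k hk0 hk
    obtain ⟨v, hv⟩ := h.surj 1 1 ⟨one_pow _, one_pow _⟩
    refine ⟨v, fun c hc => ?_⟩
    have e := congrArg Ψ hc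
    rw [hGk, h.smul, hv] at e
    have e1 := congrArg Prod.fst e
    have e2 := congrArg Prod.snd e
    simp only [mul_one] at e1 e2
    rw [← e2] at e1
    exact ha.pow_ne_one_of_pos_of_lt hk0.ne' hk e1

end Pool.Agent.TH759.J3622
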