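import Pool.Agent.TH759.HSBasic

set_option autoImplicit false

namespace Pool.Agent.TH759.J3622

open Polynomial Pool.Agent.TH614.HS Pool.Agent.TH759.HSB

variable {L : Type} [Field L] (D : HD L)

/-- multiples by elements of the subfield of order `q` -/
theorem mem_smul_iff {x c P Y : L} (hc : c ^ D.q = c) (h0 : c ≠ 0) :
    D.mem (c * x) P Y ↔ D.mem x P Y := by
  have hk : ∀ k, Fr D k c = c := by
    intro k
    induction k with
    | zero => simp [Fr_apply]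
    | succ k ih =>
      rw [← Fr_Fr D k 1, Fr_one_apply, hc, ih]
  rw [mem_iff, mem_iff]
  simp only [map_mul, hk]
  constructor
  · rintro ⟨h1, h2⟩
    refine ⟨h1, mul_left_cancel₀ h0 ?_⟩
    linear_combination h2
  · rintro ⟨h1, h2⟩
    refine ⟨h1, ?_⟩
    linear_combination c * h2

theorem isL_smul {x c : L} (hc : c ^ D.q = c) (h0 : c ≠ 0) (hx : D.isL x) : D.isL (c * x) := by
  have hk : ∀ k, Fr D k c = c := by
    intro k
    induction k with
    | zero => simp [Fr_apply]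
    | succ k ih =>
      rw [← Fr_Fr D k 1, Fr_one_apply, hc, ih]
  rw [isL_iff] at hx ⊢
  obtain ⟨h1, h2, h3⟩ := hx
  refine ⟨mul_ne_zero h0 h1, ?_, ?_⟩
  · rw [map_mul, hk, h2]
  · simp only [map_mul, hk]
    linear_combination c ^ 2 * h3

/-- if the points of `x` lie on `x'` then `x' = c x` with `c^q = c` -/
theorem eq_smul_of {x x' w : L} (hx : D.isL x) (hx' : D.isL x')
    (h0 : D.mem x' x 0) (h1 : D.mem x w 1) (h1' : D.mem x' w 1) :
    ∃ c, c ^ D.q = c ∧ c ≠ 0 ∧ x' = c * x := by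
  rw [isL_iff] at hx hx'
  rw [mem_iff] at h0 h1 h1'
  obtain ⟨hx0, hx6, -⟩ := hx
  obtain ⟨hx0', hx6', -⟩ := hx'
  have hf : ∀ k, Fr D k x ≠ 0 := fun k => (_root_.map_ne_zero _).2 hx0
  have hc2 : Fr D 2 (x' / x) = x' / x := by
    have h2 : Fr D 2 (Fr D 2 (x' / x)) = Fr D 2 (x' / x) := by
      rw [Fr_Fr, map_div₀, map_div₀, div_eq_div_iff (hf _) (hf _)]
      linear_combination (-1 : L) * h0.2
    exact Fr_inj D 2 h2
  have hc4 : Fr D 4 (x' / x) = x' / x := by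
    rw [show (4 : ℕ) = 2 + 2 from rfl, ← Fr_Fr, hc2, hc2]
  have hxx : x' = x' / x * x := by field_simp
  have hc3 : Fr D 3 (x' / x) = x' / x := by
    have e1 := h1'.2
    rw [hxx, map_mul, map_mul, map_mul, hc2, hc4] at e1
    have e2 : (x' / x) * Fr D 3 x = Fr D 3 (x' / x) * Fr D 3 x := by
      linear_combination e1 - (x' / x) * h1.2
    exact (mul_right_cancel₀ (hf 3) e2).symm
  have hc1 : Fr D 1 (x' / x) = x' / x := by
    have : Fr D 3 (x' / x) = Fr D 1 (Fr D 2 (x' / x)) := by rw [Fr_Fr]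
    rw [this, hc2] at hc3
    exact hc3
  rw [Fr_one_apply] at hc1
  exact ⟨x' / x, hc1, div_ne_zero hx0' hx0, hxx⟩

/-- the second point of the generator -/
theorem exists_pt [IsAlgClosed L] {x : L} (hx : D.isL x) : ∃ P, D.mem x P 1 := by
  rw [isL_iff] at hx
  obtain ⟨hx0, hx6, hx3⟩ := hx
  have hf : ∀ k, Fr D k x ≠ 0 := fun k => (_root_.map_ne_zero _).2 hx0
  set h : L := Fr D 3 x / (Fr D 2 x * Fr D 4 x) with hh
  obtain ⟨z, hz⟩ : ∃ z : L, Fr D 2 z - z = h := by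
    have hq : 1 < D.q := lt_of_lt_of_le (by norm_num) D.h5
    have hq2 : 1 < D.q ^ 2 := Nat.one_lt_pow (by norm_num) hq
    have hdeg : (X ^ (D.q ^ 2) - X - C h : L[X]).degree ≠ 0 := by
      have e : (X ^ (D.q ^ 2) - X - C h : L[X]).natDegree = D.q ^ 2 := by
        rw [natDegree_sub_C]
        exact FiniteField.X_pow_card_sub_X_natDegree_eq L hq2
      intro h0
      have := natDegree_eq_of_degree_eq_some (n := 0) (by simpa using h0)
      omega
    obtain ⟨z, hz⟩ := IsAlgClosed.exists_root _ hdeg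
    refine ⟨z, ?_⟩
    rw [IsRoot.def] at hz
    simp only [eval_sub, eval_pow, eval_X, eval_C] at hz
    rw [Fr_apply]
    exact sub_eq_zero.1 hz
  have h6 : ∀ k, Fr D (k + 6) x = Fr D k x := Fr_add6 D hx6
  have T1 : Fr D 2 h = Fr D 5 x / (Fr D 4 x * x) := by
    rw [hh, map_div₀, map_mul, Fr_Fr, Fr_Fr, Fr_Fr]
    norm_num
    rw [hx6]
  have T2 : Fr D 4 h = Fr D 1 x / (x * Fr D 2 x) := by
    rw [hh, map_div₀, map_mul, Fr_Fr, Fr_Fr, Fr_Fr]
    norm_num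
    rw [hx6, h6 1, h6 2]
  have tr : h + Fr D 2 h + Fr D 4 h = 0 := by
    rw [T1, T2, hh]
    have := hf 2
    have := hf 4
    field_simp
    linear_combination hx3
  have z6 : Fr D 6 z = z := by
    have e1 : Fr D 2 z = z + h := by rw [← hz]; ring
    have e2 : Fr D 4 z = z + h + Fr D 2 h := by
      rw [show (4 : ℕ) = 2 + 2 from rfl, ← Fr_Fr, e1, map_add, e1]
    have e3 : Fr D 6 z = z + h + Fr D 2 h + Fr D 4 h := by
      rw [show (6 : ℕ) = 2 + 4 from rfl, ← Fr_Fr, e2, map_add, map_add, e1, Fr_Fr]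
    rw [e3]
    linear_combination tr
  refine ⟨x * Fr D 4 z, ?_⟩
  rw [mem_iff]
  refine ⟨⟨?_, map_one _⟩, ?_⟩
  · have e10 : Fr D (6 + 4) z = Fr D 4 z := Fr_add6 D (by simpa [Fr_apply] using z6) 4
    rw [map_mul, hx6, Fr_Fr, e10]
  · rw [map_mul, map_mul, Fr_Fr, Fr_Fr]
    have e8 : Fr D (4 + 4) z = Fr D 2 z := Fr_add6 D (by simpa [Fr_apply] using z6) 2
    have e6 : Fr D (2 + 4) z = z := z6
    rw [e8, e6, ← sub_eq_zero]
    have hz' : Fr D 2 z = z + h := by rw [← hz]; ring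
    rw [hz', hh]
    have := hf 2
    have := hf 4
    field_simp
    ring

/-- two points of a generator are orthogonal -/
theorem orth {x P Y P' Y' : L} (hx : D.isL x) (h : D.mem x P Y) (h' : D.mem x P' Y') :
    Y * Y' ^ D.q + (P * P' ^ (D.q ^ 3) + P ^ (D.q ^ 2) * P' ^ (D.q ^ 5) + P ^ (D.q ^ 4) * P' ^ D.q) = 0 := by
  rw [isL_iff] at hx
  rw [mem_iff] at h h'
  obtain ⟨hx0, hx6, hx3⟩ := hx
  obtain ⟨⟨hP, hY⟩, hm⟩ := h
  obtain ⟨⟨hP', hY'⟩, hm'⟩ := h'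
  have hf : ∀ k, Fr D k x ≠ 0 := fun k => (_root_.map_ne_zero _).2 hx0
  have hx6' : ∀ k, Fr D (k + 6) x = Fr D k x := Fr_add6 D hx6
  have hP6 : ∀ k, Fr D (k + 6) P = Fr D k P := Fr_add6 D hP
  have hP6' : ∀ k, Fr D (k + 6) P' = Fr D k P' := Fr_add6 D hP'
  have hx7 : Fr D 7 x = Fr D 1 x := hx6' 1
  have hx8 : Fr D 8 x = Fr D 2 x := hx6' 2
  have hP7 : Fr D 8 P = Fr D 2 P := hP6 2
  have a1 : Fr D 4 x * P - x * Fr D 4 P = Y * Fr D 5 x := by
    have := congrArg (Fr D 2) hm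
    rw [map_sub, map_mul, map_mul, map_mul, Fr_Fr, Fr_Fr, Fr_Fr, Fr_Fr, Fr_Fr, hY] at this
    norm_num at this
    rw [hP, hx6] at this
    exact this
  have a2 : x * Fr D 2 P - Fr D 2 x * P = Y * Fr D 1 x := by
    have := congrArg (Fr D 4) hm
    rw [map_sub, map_mul, map_mul, map_mul, Fr_Fr, Fr_Fr, Fr_Fr, Fr_Fr, Fr_Fr,
      show Fr D 4 Y = Y by rw [show (4 : ℕ) = 2 + 2 from rfl, ← Fr_Fr, hY, hY]] at this
    norm_num at this
    rw [hP, hx6, hP7, hx8, hx7] at this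
    exact this
  have hY5 : Fr D 5 Y' = Fr D 1 Y' := by
    rw [show (5 : ℕ) = 1 + (2 + 2) from rfl, ← Fr_Fr, ← Fr_Fr, hY', hY']
  have hY3 : Fr D 7 Y' = Fr D 1 Y' := by
    rw [show (7 : ℕ) = 1 + (2 + (2 + 2)) from rfl, ← Fr_Fr, ← Fr_Fr, ← Fr_Fr, hY', hY', hY']
  have b1 : Fr D 1 x * Fr D 3 P' - Fr D 3 x * Fr D 1 P' = Fr D 1 Y' * Fr D 2 x := by
    have := congrArg (Fr D 5) hm'
    rw [map_sub, map_mul, map_mul, map_mul, Fr_Fr, Fr_Fr, Fr_Fr, Fr_Fr, Fr_Fr, hY5] at this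
    norm_num at this
    rw [show Fr D 9 P' = Fr D 3 P' from hP6' 3, show Fr D 7 P' = Fr D 1 P' from hP6' 1, hx7,
      show Fr D 9 x = Fr D 3 x from hx6' 3, hx8] at this
    exact this
  have b2 : Fr D 3 x * Fr D 5 P' - Fr D 5 x * Fr D 3 P' = Fr D 1 Y' * Fr D 4 x := by
    have := congrArg (Fr D 7) hm'
    rw [map_sub, map_mul, map_mul, map_mul, Fr_Fr, Fr_Fr, Fr_Fr, Fr_Fr, Fr_Fr, hY3] at this
    norm_num at this
    rw [show Fr D 9 P' = Fr D 3 P' from hP6' 3, show Fr D 11 P' = Fr D 5 P' from hP6' 5,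
      show Fr D 11 x = Fr D 5 x from hx6' 5,
      show Fr D 9 x = Fr D 3 x from hx6' 3, show Fr D 10 x = Fr D 4 x from hx6' 4] at this
    exact this
  have key : x * Fr D 3 x * (Y * Fr D 1 Y' + (P * Fr D 3 P' + Fr D 2 P * Fr D 5 P'
      + Fr D 4 P * Fr D 1 P')) = 0 := by
    have c1 : x * Fr D 2 P = Fr D 2 x * P + Y * Fr D 1 x := by linear_combination a2
    have c2 : x * Fr D 4 P = Fr D 4 x * P - Y * Fr D 5 x := by linear_combination -a1
    have c3 : Fr D 3 x * Fr D 5 P' = Fr D 5 x * Fr D 3 P' + Fr D 1 Y' * Fr D 4 x := by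
      linear_combination b2
    have c4 : Fr D 3 x * Fr D 1 P' = Fr D 1 x * Fr D 3 P' - Fr D 1 Y' * Fr D 2 x := by
      linear_combination -b1
    calc x * Fr D 3 x * (Y * Fr D 1 Y' + (P * Fr D 3 P' + Fr D 2 P * Fr D 5 P'
          + Fr D 4 P * Fr D 1 P'))
        = x * Fr D 3 x * (Y * Fr D 1 Y' + P * Fr D 3 P')
          + (x * Fr D 2 P) * (Fr D 3 x * Fr D 5 P') + (x * Fr D 4 P) * (Fr D 3 x * Fr D 1 P') := by
          ring
      _ = 0 := by
          rw [c1, c2, c3, c4]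
          linear_combination (Y * Fr D 1 Y' + P * Fr D 3 P') * hx3
  have := (mul_eq_zero.1 key).resolve_left (mul_ne_zero hx0 (hf 3))
  rw [Fr_one_apply, Fr_one_apply] at this
  exact this

end Pool.Agent.TH759.J3622
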