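import Mathlib

/-!
Combinatorics for closed discrete subsets of strongly star-Menger spaces: coherent filtrations
below the successor of a regular cardinal, and a diagonalisation against all countable colourings
with finitely many colours on each level.
-/

set_option autoImplicit false
set_option linter.unusedSectionVars false

namespace Pool.Agent.TH759.SM

open Cardinal Ordinal Set Filter

section filtration

variable {K L : Type} [LinearOrder K] [WellFoundedLT K] [LinearOrder L] [WellFoundedLT L]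

/-- the filtration of the initial segment below `γ` -/
def fil (f : K → K → L) (γ : K) (i : L) : Set K := {α | α < γ ∧ f γ α < i}

/-- coherence of the filtration of `δ` at `i` -/
def Coh (f : K → K → L) (δ : K) (i : L) : Prop :=
  ∀ α ∈ fil f δ i, ∀ β < α, (β ∈ fil f δ i ↔ β ∈ fil f α i)

theorem card_fil {f : K → K → L} (hf : ∀ γ, InjOn (f γ) (Iio γ)) (γ : K) (i : L) :
    #(fil f γ i) ≤ #(Iio i) := by
  refine mk_le_of_injective (f := fun x : fil f γ i => (⟨f γ x.1, x.2.2⟩ : Iio i)) ?_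
  intro x y h
  have h2 : f γ x.1 = f γ y.1 := by simpa using congrArg Subtype.val h
  exact Subtype.ext (hf γ x.2.1 y.2.1 h2)

/-- every set of fewer than `#L` elements is bounded -/
def Bdd (L : Type) [LinearOrder L] : Prop := ∀ S : Set L, #S < #L → ∃ u, ∀ s ∈ S, s < u

theorem bdd_image (hB : Bdd L) {A : Type} {S : Set A} (hS : #S < #L) (h : A → L) :
    ∃ u, ∀ s ∈ S, h s < u := by
  obtain ⟨u, hu⟩ := hB (h '' S) (mk_image_le.trans_lt hS)
  exact ⟨u, fun s hs => hu _ (mem_image_of_mem _ hs)⟩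

theorem exists_closed (hB : Bdd L) (hI : ∀ i : L, #(Iio i) < #L) (hL : ℵ₀ < #L) (F : L → L)
    (j0 : L) : ∃ i, j0 ≤ i ∧ ∀ j < i, F j < i := by
  have h1 : ∀ x : L, ∃ y, x < y ∧ ∀ j < y, True := fun x => by
    obtain ⟨u, hu⟩ := hB {x} (by rw [mk_singleton]; exact (one_lt_aleph0).trans hL)
    exact ⟨u, hu x rfl, fun _ _ => trivial⟩
  have h2 : ∀ x : L, ∃ y, x < y ∧ ∀ j < x, F j < y := fun x => by
    obtain ⟨u, hu⟩ := bdd_image hB (hI x) F
    obtain ⟨v, hv, -⟩ := h1 (max x u)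
    exact ⟨v, (le_max_left _ _).trans_lt hv, fun j hj =>
      ((hu j hj).trans_le (le_max_right _ _)).trans hv⟩
  choose nx hn1 hn2 using h2
  let u : ℕ → L := fun n => nx^[n] j0
  have hu : ∀ n, u (n + 1) = nx (u n) := fun n => Function.iterate_succ_apply' _ _ _
  have hne : {x | ∀ n, u n < x}.Nonempty := by
    obtain ⟨v, hv⟩ := hB (range u) ((mk_range_le).trans_lt (by simpa using hL))
    exact ⟨v, fun n => hv _ (mem_range_self n)⟩
  obtain ⟨i, hi, hmin⟩ := WellFounded.has_min (wellFounded_lt (α := L)) _ hne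
  refine ⟨i, (hi 0).le, fun j hj => ?_⟩
  have : ∃ n, j ≤ u n := by
    by_contra hcon
    push Not at hcon
    exact hmin j hcon hj
  obtain ⟨n, hn⟩ := this
  have h3 : j < u (n + 1) := hn.trans_lt (by rw [hu]; exact hn1 _)
  have h4 : F j < u (n + 2) := by rw [hu]; exact hn2 _ j h3
  exact h4.trans (hi _)

theorem exists_coh (hB : Bdd L) (hI : ∀ i : L, #(Iio i) < #L) (hL : ℵ₀ < #L)
    {f : K → K → L} (hf : ∀ γ, InjOn (f γ) (Iio γ)) (δ : K) (j0 : L) :
    ∃ i, j0 ≤ i ∧ Coh f δ i := by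
  have hcf : ∀ γ i, #(fil f γ i) < #L := fun γ i => (card_fil hf γ i).trans_lt (hI i)
  -- bounds
  have h1 : ∀ (α : K) (j : L), ∃ u, ∀ β ∈ fil f δ j, f α β < u := fun α j =>
    bdd_image hB (hcf δ j) (f α)
  have h2 : ∀ (α : K) (j : L), ∃ u, ∀ β ∈ fil f α j, f δ β < u := fun α j =>
    bdd_image hB (hcf α j) (f δ)
  choose u1 hu1 using h1
  choose u2 hu2 using h2
  have h3 : ∀ j : L, ∃ v, j < v ∧ ∀ α ∈ fil f δ j, u1 α j < v ∧ u2 α j < v := fun j => by
    obtain ⟨v1, hv1⟩ := bdd_image hB (hcf δ j) (fun α => u1 α j)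
    obtain ⟨v2, hv2⟩ := bdd_image hB (hcf δ j) (fun α => u2 α j)
    obtain ⟨v3, hv3⟩ := hB {j} (by rw [mk_singleton]; exact (one_lt_aleph0).trans hL)
    exact ⟨max v3 (max v1 v2), (hv3 j rfl).trans_le (le_max_left _ _), fun α hα =>
      ⟨(hv1 α hα).trans_le ((le_max_left _ _).trans (le_max_right _ _)),
        (hv2 α hα).trans_le ((le_max_right _ _).trans (le_max_right _ _))⟩⟩
  choose F hF1 hF2 using h3
  obtain ⟨i, hi, hcl⟩ := exists_closed hB hI hL F j0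
  refine ⟨i, hi, ?_⟩
  rintro α ⟨hαδ, hα⟩ β hβ
  constructor
  · rintro ⟨hβδ, hβi⟩
    refine ⟨hβ, ?_⟩
    have hm : max (f δ α) (f δ β) < i := max_lt hα hβi
    set j := F (max (f δ α) (f δ β)) with hj
    have hji : j < i := hcl _ hm
    have ha : f δ α < j := (le_max_left _ _).trans_lt (hF1 _)
    have hb : f δ β < j := (le_max_right _ _).trans_lt (hF1 _)
    have h5 := hu1 α j β ⟨hβδ, hb⟩
    have h6 := (hF2 j α ⟨hαδ, ha⟩).1
    exact (h5.trans h6).trans (hcl j hji)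
  · rintro ⟨-, hβi⟩
    refine ⟨hβ.trans hαδ, ?_⟩
    have hm : max (f δ α) (f α β) < i := max_lt hα hβi
    set j := F (max (f δ α) (f α β)) with hj
    have hji : j < i := hcl _ hm
    have ha : f δ α < j := (le_max_left _ _).trans_lt (hF1 _)
    have hb : f α β < j := (le_max_right _ _).trans_lt (hF1 _)
    have h5 := hu2 α j β ⟨hβ, hb⟩
    have h6 := (hF2 j α ⟨hαδ, ha⟩).2
    exact (h5.trans h6).trans (hcl j hji)

/-- the order type of the filtration -/
noncomputable def rho (f : K → K → L) (γ : K) (i : L) : Ordinal.{0} := typeLT (fil f γ i)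

theorem rho_eq {f : K → K → L} {δ : K} {i : L} (hc : Coh f δ i) {α : K} (hα : α ∈ fil f δ i) :
    rho f α i = typein (α := fil f δ i) (· < ·) ⟨α, hα⟩ := by
  unfold rho
  have e : (fil f α i) ≃o (Iio (⟨α, hα⟩ : fil f δ i)) :=
    { toFun := fun x => ⟨⟨x.1, (hc α hα x.1 x.2.1).2 x.2⟩, x.2.1⟩
      invFun := fun y => ⟨y.1.1, (hc α hα y.1.1 y.2).1 y.1.2⟩
      left_inv := fun x => rfl
      right_inv := fun y => rfl
      map_rel_iff' := by
        intro x y
        rfl }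
  rw [e.ordinalType_congr]
  exact type_Iio_lt _

theorem rho_lt {f : K → K → L} {δ : K} {i : L} (hc : Coh f δ i) {α β : K} (hα : α ∈ fil f δ i)
    (hβ : β ∈ fil f δ i) : rho f α i < rho f β i ↔ α < β := by
  rw [rho_eq hc hα, rho_eq hc hβ, typein_lt_typein]
  rfl

theorem rho_le {f : K → K → L} {δ : K} {i : L} (hc : Coh f δ i) {α β : K} (hα : α ∈ fil f δ i)
    (hβ : β ∈ fil f δ i) : rho f α i ≤ rho f β i ↔ α ≤ β := by
  rw [← not_lt, rho_lt hc hβ hα, not_lt]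

theorem rho_lt_top {f : K → K → L} {δ : K} {i : L} (hc : Coh f δ i) {α : K}
    (hα : α ∈ fil f δ i) : rho f α i < rho f δ i := by
  rw [rho_eq hc hα]
  exact typein_lt_type _ _

theorem rho_surj {f : K → K → L} {δ : K} {i : L} (hc : Coh f δ i) {ξ : Ordinal.{0}}
    (h : ξ < rho f δ i) : ∃ α ∈ fil f δ i, rho f α i = ξ := by
  obtain ⟨⟨α, hα⟩, h2⟩ := typein_surj (α := fil f δ i) (· < ·) h
  exact ⟨α, hα, by rw [rho_eq hc hα]; exact h2⟩

theorem rho_lt_type (hI : ∀ i : L, #(Iio i) < #L) {f : K → K → L}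
    (hf : ∀ γ, InjOn (f γ) (Iio γ)) (γ : K) (i : L) : rho f γ i < typeLT L := by
  by_contra hcon
  push Not at hcon
  have h := card_le_card hcon
  unfold rho at h
  rw [card_type, card_type] at h
  exact absurd (h.trans (card_fil hf γ i)) (not_le.2 (hI i))

end filtration

/-- a cofinal subset of `ζ` with countable proper initial segments -/
def Good (ζ : Ordinal.{0}) (E : Set Ordinal.{0}) : Prop :=
  (∀ ξ < ζ, (E ∩ Iio ξ).Countable) ∧ ∀ ξ < ζ, ∃ η ∈ E, ξ ≤ η ∧ η < ζ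

open Classical in
/-- a choice of such subsets -/
noncomputable def EE (ζ : Ordinal.{0}) : Set Ordinal.{0} :=
  if h : ∃ E, Good ζ E then h.choose else ∅

theorem good_EE {ζ : Ordinal.{0}} {E : Set Ordinal.{0}} (h : Good ζ E) : Good ζ (EE ζ) := by
  have h' : ∃ E, Good ζ E := ⟨E, h⟩
  unfold EE
  rw [dif_pos h']
  exact h'.choose_spec

section main

variable {K L : Type} [LinearOrder K] [WellFoundedLT K] [LinearOrder L] [WellFoundedLT L]

/-- the index set -/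
abbrev Idx (K L : Type) : Type := (K × L × L) × K × ℕ

/-- the countable set of predecessors attached to an index -/
def S0 (f : K → K → L) (b : K × L × L) : Set K :=
  {β | β ∈ fil f b.1 b.2.1 ∧ rho f β b.2.1 ∈ EE (typein (α := L) (· < ·) b.2.2)}

/-- the set of indices observed by `b` -/
def SS (f : K → K → L) (b : K × L × L) : Set (Idx K L) :=
  {x | x.1.1 ∈ S0 f b ∧ x.1.2 = b.2 ∧ x.2.1 ∈ S0 f b}

theorem SS_countable {f : K → K → L} {b : K × L × L} (h : (S0 f b).Countable) :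
    (SS f b).Countable := by
  have h1 : ((S0 f b ×ˢ S0 f b) ×ˢ (Set.univ : Set ℕ)).Countable :=
    (h.prod h).prod countable_univ
  refine (h1.image (fun y : (K × K) × ℕ => (((y.1.1, b.2), y.1.2, y.2) : Idx K L))).mono ?_
  rintro ⟨⟨γ, c⟩, γ', k⟩ ⟨h2, h3, h4⟩
  refine ⟨((γ, γ'), k), ⟨⟨h2, h4⟩, Set.mem_univ _⟩, ?_⟩
  simp only at h3
  subst h3
  rfl

open Classical in
/-- an enumeration of the observed set, if it is countable -/
noncomputable def en (f : K → K → L) (b : K × L × L) : ℕ → Idx K L :=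
  if h : ∃ e : ℕ → Idx K L, SS f b ⊆ range e then h.choose else fun _ => (b, b.1, 0)

theorem en_spec {f : K → K → L} {b : K × L × L} (h : (SS f b).Countable) :
    SS f b ⊆ range (en f b) := by
  have : Nonempty (Idx K L) := ⟨(b, b.1, 0)⟩
  have h' : ∃ e : ℕ → Idx K L, SS f b ⊆ range e := countable_iff_exists_subset_range.1 h
  unfold en
  rw [dif_pos h']
  exact h'.choose_spec

open Classical in
/-- the assignment of finite sets -/
noncomputable def AA (f : K → K → L) (g : K → ℕ → ℕ) (n : ℕ) (d : Idx K L) :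
    Finset (Idx K L) :=
  ((Finset.range (g d.2.1 n + d.2.2)).image (en f d.1)).erase d

theorem notMem_AA (f : K → K → L) (g : K → ℕ → ℕ) (n : ℕ) (d : Idx K L) : d ∉ AA f g n d := by
  unfold AA
  exact Finset.notMem_erase _ _

theorem notMem_SS (f : K → K → L) (b : K × L × L) (γ : K) (k : ℕ) :
    ((b, γ, k) : Idx K L) ∉ SS f b := by
  rintro ⟨h, -⟩
  exact lt_irrefl _ h.1.1

/-- first step: indices whose colour does not occur in the observed set -/
theorem step1 {f : K → K → L} {g : K → ℕ → ℕ}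
    (hg : ∀ h : ℕ → ℕ, ∃ γ₀, ∀ γ, γ₀ ≤ γ → ∀ᶠ n in atTop, h n ≤ g γ n)
    {p : Idx K L → ℕ × ℕ} {N : ℕ → ℕ} (hN : ∀ d, (p d).2 < N (p d).1)
    (hp : ∀ d s, p d = p s → s ∉ AA f g (p d).1 d) (b : K × L × L) :
    ∃ γ₀ : K, (SS f b).Countable → ∀ γ, γ₀ ≤ γ → ∃ k : ℕ, ∀ s ∈ SS f b, p s ≠ p (b, γ, k) := by
  classical
  by_cases hc : (SS f b).Countable
  swap
  · exact ⟨b.1, fun h => absurd h hc⟩
  have hen := en_spec hc
  -- hitting function
  have h1 : ∀ n : ℕ, ∃ m : ℕ, ∀ s ∈ SS f b, (p s).1 = n →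
      ∃ j < m, p (en f b j) = p s ∧ en f b j ∈ SS f b := by
    intro n
    have h2 : ∀ c : ℕ, ∃ m : ℕ, ∀ s ∈ SS f b, p s = (n, c) →
        ∃ j < m, p (en f b j) = p s ∧ en f b j ∈ SS f b := by
      intro c
      by_cases h3 : ∃ s ∈ SS f b, p s = (n, c)
      · obtain ⟨s, hs, hps⟩ := h3
        obtain ⟨j, hj⟩ := hen hs
        refine ⟨j + 1, fun s' _ hps' => ⟨j, by omega, ?_, by rw [hj]; exact hs⟩⟩
        rw [hj, hps, hps']
      · exact ⟨0, fun s hs hps => absurd ⟨s, hs, hps⟩ h3⟩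
    choose m hm using h2
    refine ⟨(Finset.range (N n)).sup m, fun s hs hn => ?_⟩
    have hlt : (p s).2 < N n := by rw [← hn]; exact hN s
    obtain ⟨j, hj, h4⟩ := hm (p s).2 s hs (by rw [← hn])
    exact ⟨j, hj.trans_le (Finset.le_sup (f := m) (Finset.mem_range.2 hlt)), h4⟩
  choose h hh using h1
  obtain ⟨γ₀, hγ₀⟩ := hg h
  refine ⟨γ₀, fun _ γ hγ => ?_⟩
  obtain ⟨m0, hm0⟩ := eventually_atTop.1 (hγ₀ γ hγ)
  have hk : ∃ k : ℕ, ∀ n, h n ≤ g γ n + k := by
    refine ⟨(Finset.range m0).sup h, fun n => ?_⟩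
    by_cases hn : m0 ≤ n
    · exact (hm0 n hn).trans (Nat.le_add_right _ _)
    · have := Finset.le_sup (f := h) (Finset.mem_range.2 (not_le.1 hn))
      omega
  obtain ⟨k, hk⟩ := hk
  refine ⟨k, fun s hs hps => ?_⟩
  obtain ⟨j, hj, h5, h6⟩ := hh (p s).1 s hs rfl
  refine hp (b, γ, k) (en f b j) (by rw [h5, hps]) ?_
  unfold AA
  rw [Finset.mem_erase]
  refine ⟨fun h7 => notMem_SS f b γ k (h7 ▸ h6), ?_⟩
  rw [Finset.mem_image]
  refine ⟨j, ?_, rfl⟩
  rw [Finset.mem_range]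
  have := hk (p s).1
  rw [hps] at this hj
  simp only at this hj ⊢
  omega

end main

/-! ### the chain -/

section chain

variable {K W : Type} [LinearOrder K] [LinearOrder W] [WellFoundedLT W]

theorem exists_rec [Nonempty K] (hb : ∀ S : Set K, #S ≤ #W → ∃ u, ∀ s ∈ S, s < u) (nx : K → K) :
    ∃ c : W → K, ∀ ν, ∀ μ < ν, nx (c μ) < c ν := by
  classical
  let bd : Set K → K := fun S => if h : ∃ u, ∀ s ∈ S, s < u then h.choose else Classical.arbitrary K
  have hbd : ∀ S : Set K, (∃ u, ∀ s ∈ S, s < u) → ∀ s ∈ S, s < bd S := by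
    intro S h
    have e : bd S = h.choose := dif_pos h
    rw [e]
    exact h.choose_spec
  let c : W → K := (wellFounded_lt (α := W)).fix
    (fun ν ih => bd {x | ∃ μ, ∃ h : μ < ν, x = nx (ih μ h)})
  have hc : ∀ ν, c ν = bd {x | ∃ μ, ∃ _ : μ < ν, x = nx (c μ)} := by
    intro ν
    exact WellFounded.fix_eq _ _ _
  refine ⟨c, fun ν μ hμ => ?_⟩
  rw [hc ν]
  apply hbd
  · apply hb
    have h1 : {x | ∃ μ, ∃ _ : μ < ν, x = nx (c μ)} ⊆ range (fun μ => nx (c μ)) := by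
      rintro x ⟨μ, -, rfl⟩
      exact ⟨μ, rfl⟩
    exact (mk_le_mk_of_subset h1).trans mk_range_le
  · exact ⟨μ, hμ, rfl⟩

end chain

section final

variable {K L W : Type} [LinearOrder K] [WellFoundedLT K] [LinearOrder L] [WellFoundedLT L]
  [LinearOrder W] [WellFoundedLT W]

/-- No colouring with finitely many colours on each level is free for the assignment. -/
theorem no_scheme [Nonempty K] (hK1 : ∀ γ : K, #(Iio γ) ≤ #L)
    (hK2 : ∀ S : Set K, #S ≤ #L → ∃ u, ∀ s ∈ S, s < u)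
    (hB : Bdd L) (hI : ∀ i : L, #(Iio i) < #L) (hWL : #W < #L)
    (hWc : ∀ w : W, (Iio w).Countable) (hWb : ∀ S : Set W, S.Countable → ∃ u, ∀ s ∈ S, s < u)
    [Nonempty W]
    {g : K → ℕ → ℕ} (hg : ∀ h : ℕ → ℕ, ∃ γ₀, ∀ γ, γ₀ ≤ γ → ∀ᶠ n in atTop, h n ≤ g γ n) :
    ∃ f : K → K → L, ∀ (p : Idx K L → ℕ × ℕ) (N : ℕ → ℕ), (∀ d, (p d).2 < N (p d).1) →
      (∀ d s, p d = p s → s ∉ AA f g (p d).1 d) → False := by
  classical
  have hWinf : ℵ₀ ≤ #W := by
    rw [← not_lt]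
    intro h
    obtain ⟨u, hu⟩ := hWb Set.univ (by
      have : Finite W := lt_aleph0_iff_finite.1 h
      exact Set.countable_univ_iff.2 (Finite.to_countable))
    exact lt_irrefl _ (hu u (Set.mem_univ _))
  have hL : ℵ₀ < #L := hWinf.trans_lt hWL
  -- injections
  have hinj : ∀ γ : K, ∃ h : K → L, InjOn h (Iio γ) := by
    intro γ
    obtain ⟨e⟩ := hK1 γ
    have : Nonempty L := mk_ne_zero_iff.1 (by
      intro h0
      rw [h0] at hL
      exact absurd hL (by simp))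
    refine ⟨fun x => if h : x < γ then e ⟨x, h⟩ else Classical.arbitrary L, ?_⟩
    intro x hx y hy hxy
    have hx' : x < γ := hx
    have hy' : y < γ := hy
    simp only [dif_pos hx', dif_pos hy'] at hxy
    exact congrArg Subtype.val (e.injective hxy)
  choose f hf using hinj
  refine ⟨f, fun p N hN hp => ?_⟩
  have h1 := step1 hg hN hp
  choose φ hφ using h1
  -- the function `nx`
  have hnx : ∀ α : K, ∃ β : K, α < β ∧ ∀ γ ≤ α, ∀ i z : L, φ (γ, i, z) < β := by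
    intro α
    have hS : #(((fun x : K × L × L => φ x) '' (Iic α ×ˢ Set.univ)) ∪ {α} : Set K) ≤ #L := by
      have hIic : #(Iic α) ≤ #L := by
        have : Iic α = insert α (Iio α) := by
          ext x
          simp [le_iff_eq_or_lt]
        rw [this]
        refine mk_insert_le.trans ?_
        exact (add_le_add (hK1 α) (one_le_aleph0.trans hL.le)).trans (add_eq_self hL.le).le
      refine (mk_union_le _ _).trans ?_
      rw [mk_singleton]
      refine (add_le_add (mk_image_le.trans ?_) (one_le_aleph0.trans hL.le)).trans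
        (add_eq_self hL.le).le
      have e1 : #(↥(Iic α ×ˢ (Set.univ : Set (L × L)))) = #(Iic α) * #(L × L) := by
        rw [mk_setProd]
        simp
      rw [e1, mk_prod]
      simp only [Cardinal.lift_id]
      rw [mul_eq_self hL.le]
      exact (mul_le_mul' hIic le_rfl).trans (mul_eq_self hL.le).le
    obtain ⟨u, hu⟩ := hK2 _ hS
    refine ⟨u, hu α (Or.inr rfl), fun γ hγ i z => hu _ (Or.inl ⟨(γ, i, z), ⟨hγ, Set.mem_univ _⟩, rfl⟩)⟩
  choose nx hnx1 hnx2 using hnx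
  obtain ⟨c, hc⟩ := exists_rec (K := K) (W := W) (fun S hS => hK2 S (hS.trans hWL.le)) nx
  have hcm : ∀ {μ ν : W}, μ < ν → c μ < c ν := fun {μ ν} h => (hnx1 _).trans (hc ν μ h)
  have hcm' : ∀ {μ ν : W}, μ ≤ ν → c μ ≤ c ν := fun {μ ν} h => by
    rcases h.lt_or_eq with h | rfl
    · exact (hcm h).le
    · exact le_rfl
  -- the point `δ`
  have hne : {x : K | ∀ ν, c ν < x}.Nonempty := by
    obtain ⟨v, hv⟩ := hK2 (range c) (mk_range_le.trans hWL.le)
    exact ⟨v, fun n => hv _ (mem_range_self n)⟩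
  obtain ⟨δ, hδ, hmin⟩ := WellFounded.has_min (wellFounded_lt (α := K)) _ hne
  have hδc : ∀ γ < δ, ∃ ν, γ ≤ c ν := by
    intro γ hγ
    by_contra hcon
    push Not at hcon
    exact hmin γ hcon hγ
  have hWs : ∀ ν : W, ∃ ν', ν < ν' := fun ν => by
    obtain ⟨u, hu⟩ := hWb {ν} (countable_singleton ν)
    exact ⟨u, hu ν rfl⟩
  have hδφ : ∀ γ < δ, ∀ i z, φ (γ, i, z) < δ := by
    intro γ hγ i z
    obtain ⟨ν, hν⟩ := hδc γ hγ
    obtain ⟨ν', hν'⟩ := hWs ν
    exact (hnx2 _ γ hν i z).trans ((hc ν' ν hν').trans (hδ _))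
  -- the level `i`
  obtain ⟨j0, hj0⟩ := bdd_image hB (S := (Set.univ : Set W)) (by rw [Cardinal.mk_univ]; exact hWL)
    (fun ν => f δ (c ν))
  obtain ⟨i, hi, hcoh⟩ := exists_coh hB hI hL hf δ j0
  have hcf : ∀ ν, c ν ∈ fil f δ i := fun ν => ⟨hδ ν, (hj0 ν (Set.mem_univ _)).trans_le hi⟩
  obtain ⟨z, hz⟩ := typein_surj (α := L) (· < ·) (rho_lt_type hI hf δ i)
  -- goodness
  have hgood : Good (rho f δ i) (range fun ν => rho f (c ν) i) := by
    constructor
    · intro ξ hξ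
      obtain ⟨β, hβ, rfl⟩ := rho_surj hcoh hξ
      obtain ⟨ν, hν⟩ := hδc β hβ.1
      refine ((hWc ν).image fun ν => rho f (c ν) i).mono ?_
      rintro x ⟨⟨μ, rfl⟩, hx⟩
      refine ⟨μ, ?_, rfl⟩
      have h2 : c μ < β := (rho_lt hcoh (hcf μ) hβ).1 hx
      by_contra h3
      exact absurd (h2.trans_le hν) (not_lt.2 (hcm' (not_lt.1 h3)))
    · intro ξ hξ
      obtain ⟨β, hβ, rfl⟩ := rho_surj hcoh hξ
      obtain ⟨ν, hν⟩ := hδc β hβ.1
      exact ⟨_, ⟨ν, rfl⟩, (rho_le hcoh hβ (hcf ν)).2 hν, rho_lt_top hcoh (hcf ν)⟩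
  have hE := good_EE hgood
  set T : Set K := {β | β ∈ fil f δ i ∧ rho f β i ∈ EE (rho f δ i)} with hT
  have hS0 : ∀ γ ∈ fil f δ i, S0 f (γ, i, z) = T ∩ Iio γ := by
    intro γ hγ
    ext β
    unfold S0
    simp only [mem_ofPred_eq, hz, hT, mem_inter_iff, mem_Iio]
    constructor
    · rintro ⟨h2, h3⟩
      exact ⟨⟨(hcoh γ hγ β h2.1).2 h2, h3⟩, h2.1⟩
    · rintro ⟨⟨h2, h3⟩, h4⟩
      exact ⟨(hcoh γ hγ β h4).1 h2, h3⟩
  have hS0c : ∀ γ ∈ fil f δ i, (S0 f (γ, i, z)).Countable := by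
    intro γ hγ
    rw [hS0 γ hγ]
    have h2 : InjOn (fun β => rho f β i) (T ∩ Iio γ) := by
      rintro x ⟨hx, -⟩ y ⟨hy, -⟩ hxy
      rcases lt_trichotomy x y with h | h | h
      · exact absurd hxy ((rho_lt hcoh hx.1 hy.1).2 h).ne
      · exact h
      · exact absurd hxy.symm ((rho_lt hcoh hy.1 hx.1).2 h).ne
    refine MapsTo.countable_of_injOn (t := EE (rho f δ i) ∩ Iio (rho f γ i)) ?_ h2
      (hE.1 _ (rho_lt_top hcoh hγ))
    rintro x ⟨hx, hxγ⟩
    exact ⟨hx.2, (rho_lt hcoh hx.1 hγ).2 hxγ⟩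
  have hTcof : ∀ α < δ, ∃ β ∈ T, α < β := by
    intro α hα
    obtain ⟨ν, hν⟩ := hδc α hα
    obtain ⟨ν', hν'⟩ := hWs ν
    obtain ⟨η, hη, h2, h3⟩ := hE.2 _ (rho_lt_top hcoh (hcf ν'))
    obtain ⟨β, hβ, rfl⟩ := rho_surj hcoh h3
    exact ⟨β, ⟨hβ, hη⟩, (hν.trans_lt (hcm hν')).trans_le ((rho_le hcoh (hcf ν') hβ).1 h2)⟩
  -- the selected indices
  have hsel : ∀ γ : K, ∃ (γ' : K) (k : ℕ), γ ∈ T → γ' ∈ T ∧
      ∀ s ∈ SS f (γ, i, z), p s ≠ p ((γ, i, z), γ', k) := by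
    intro γ
    by_cases hγ : γ ∈ T
    · obtain ⟨γ', hγ', h2⟩ := hTcof _ (hδφ γ hγ.1.1 i z)
      obtain ⟨k, hk⟩ := hφ (γ, i, z) (SS_countable (hS0c γ hγ.1)) γ' h2.le
      exact ⟨γ', k, fun _ => ⟨hγ', hk⟩⟩
    · exact ⟨γ, 0, fun h => absurd h hγ⟩
  choose G κ hGκ using hsel
  let d : K → Idx K L := fun γ => ((γ, i, z), G γ, κ γ)
  have hcol : ∀ π : ℕ × ℕ, ∃ ν : W, ∀ γ ∈ T, p (d γ) = π → γ ≤ c ν := by
    intro π
    by_cases hex : ∃ γ' ∈ T, p (d γ') = π
    · obtain ⟨γ', hγ', hpγ'⟩ := hex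
      have h2 : max γ' (G γ') < δ := max_lt hγ'.1.1 (hGκ γ' hγ').1.1.1
      obtain ⟨ν, hν⟩ := hδc _ h2
      refine ⟨ν, fun γ hγ hpγ => ?_⟩
      by_contra hcon
      push Not at hcon
      have h3 : max γ' (G γ') < γ := hν.trans_lt hcon
      refine (hGκ γ hγ).2 (d γ') ?_ (hpγ'.trans hpγ.symm)
      have e := hS0 γ hγ.1
      refine ⟨?_, rfl, ?_⟩
      · rw [e]
        exact ⟨hγ', (le_max_left _ _).trans_lt h3⟩
      · rw [e]
        exact ⟨(hGκ γ' hγ').1, (le_max_right _ _).trans_lt h3⟩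
    · exact ⟨Classical.arbitrary W, fun γ hγ hpγ => absurd ⟨γ, hγ, hpγ⟩ hex⟩
  choose νc hνc using hcol
  obtain ⟨ν, hν⟩ := hWb (range νc) (countable_range νc)
  obtain ⟨γ, hγ, hγν⟩ := hTcof (c ν) (hδ ν)
  have h9 := hνc (p (d γ)) γ hγ rfl
  exact absurd (hγν.trans_le h9) (not_lt.2 (hcm' (hν _ (mem_range_self _)).le))

end final

end Pool.Agent.TH759.SM
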