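import Pool.Agent.TH759.SMTop

/-!
The negated form of Sakai's question under `b = d = lambda^+` and `cof([d]^omega) > d`.
-/

set_option autoImplicit false
set_option linter.unusedSectionVars false

namespace Pool.Agent.TH759.SM

open Cardinal Ordinal Set Filter

/-- `𝒞` is a family of countable sets such that every countable set is contained in a member -/
def Cof {α : Type} (𝒞 : Set (Set α)) : Prop :=
  (∀ C ∈ 𝒞, C.Countable) ∧ ∀ A : Set α, A.Countable → ∃ C ∈ 𝒞, A ⊆ C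

/-- `cof ([α]^ω) = μ` -/
def FP (α : Type) (μ : Cardinal.{0}) : Prop :=
  ∃ 𝒞 : Set (Set α), Cof 𝒞 ∧ #𝒞 = μ ∧ ∀ 𝒟 : Set (Set α), Cof 𝒟 → μ ≤ #𝒟

theorem Cof.map {α β : Type} (e : α ≃ β) {𝒞 : Set (Set α)} (h : Cof 𝒞) :
    Cof ((fun C => e '' C) '' 𝒞) := by
  constructor
  · rintro _ ⟨C, hC, rfl⟩
    exact (h.1 C hC).image e
  · intro A hA
    obtain ⟨C, hC, hAC⟩ := h.2 (e.symm '' A) (hA.image _)
    refine ⟨e '' C, ⟨C, hC, rfl⟩, ?_⟩
    intro x hx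
    exact ⟨e.symm x, hAC ⟨x, hx, rfl⟩, e.apply_symm_apply x⟩

theorem card_map {α β : Type} (e : α ≃ β) (𝒞 : Set (Set α)) :
    #((fun C => e '' C) '' 𝒞 : Set (Set β)) = #𝒞 :=
  mk_image_eq (image_injective.2 e.injective)

theorem FP.map {α β : Type} (e : α ≃ β) {μ : Cardinal.{0}} (h : FP α μ) : FP β μ := by
  obtain ⟨𝒞, h1, h2, h3⟩ := h
  refine ⟨(fun C => e '' C) '' 𝒞, h1.map e, by rw [card_map, h2], fun 𝒟 h𝒟 => ?_⟩
  have := h3 _ (h𝒟.map e.symm)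
  rwa [card_map] at this

theorem card_le_of_cof {α : Type} (hα : ℵ₀ < #α) {𝒟 : Set (Set α)} (h : Cof 𝒟) : #α ≤ #𝒟 := by
  have h1 : (Set.univ : Set α) ⊆ ⋃₀ 𝒟 := fun x _ => by
    obtain ⟨C, hC, hx⟩ := h.2 {x} (countable_singleton x)
    exact ⟨C, hC, hx rfl⟩
  have h2 : #α ≤ #𝒟 * ℵ₀ := by
    rw [← mk_univ]
    refine (mk_le_mk_of_subset h1).trans ?_
    rw [sUnion_eq_iUnion]
    refine (mk_iUnion_le _).trans ?_
    refine mul_le_mul' le_rfl (ciSup_le' fun C => ?_)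
    exact mk_le_aleph0_iff.2 (h.1 C.1 C.2)
  rcases le_or_gt ℵ₀ (#𝒟) with h3 | h3
  · rwa [mul_aleph0_eq h3] at h2
  · exact absurd (h2.trans (mul_le_mul' h3.le le_rfl)) (not_le.2 (by
      rw [aleph0_mul_aleph0]; exact hα))

theorem FP_continuum {α : Type} (hα : #α = continuum) : FP α continuum := by
  have hα0 : ℵ₀ < #α := by rw [hα]; exact aleph0_lt_continuum
  have hc : Cof {C : Set α | C.Countable} := ⟨fun C hC => hC, fun A hA => ⟨A, hA, Subset.rfl⟩⟩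
  refine ⟨{C | C.Countable}, hc, le_antisymm ?_ ?_, fun 𝒟 h𝒟 => ?_⟩
  · have h1 : {C : Set α | C.Countable} ⊆ insert ∅ (range fun u : ℕ → α => range u) := by
      intro C hC
      rcases C.eq_empty_or_nonempty with rfl | hne
      · exact Or.inl rfl
      · obtain ⟨u, hu⟩ := Set.Countable.exists_eq_range hC hne
        exact Or.inr ⟨u, hu.symm⟩
    refine (mk_le_mk_of_subset h1).trans (mk_insert_le.trans ?_)
    have h2 : #(range fun u : ℕ → α => range u) ≤ continuum := by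
      refine mk_range_le.trans ?_
      rw [← power_def, hα, mk_nat, continuum_power_aleph0]
    exact (add_le_add h2 (one_le_aleph0.trans aleph0_le_continuum)).trans
      (add_eq_self aleph0_le_continuum).le
  · rw [← hα]; exact card_le_of_cof hα0 hc
  · rw [← hα]; exact card_le_of_cof hα0 h𝒟


/-- there is a dominating family of size at most `μ`, that is `d ≤ μ` -/
def DLe (μ : Cardinal.{0}) : Prop :=
  ∃ F : Set (ℕ → ℕ), (∀ g : ℕ → ℕ, ∃ f ∈ F, ∀ᶠ n in Filter.atTop, g n ≤ f n) ∧ #F ≤ μ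

theorem exists_min_FP (hc : DLe continuum) : ∃ μ : Cardinal.{0}, DLe μ ∧ μ ≤ continuum ∧
    (∀ α : Type, #α = μ → FP α μ) ∧
    ∀ ν : Cardinal.{0}, DLe ν → ν < μ → ∀ α : Type, #α = ν → ¬ FP α ν := by
  have hne : {μ : Cardinal.{0} | DLe μ ∧ μ ≤ continuum ∧ ∃ α : Type, #α = μ ∧ FP α μ}.Nonempty :=
    ⟨continuum, hc, le_rfl, continuum.out, mk_out _, FP_continuum (mk_out _)⟩
  obtain ⟨μ, ⟨h1, h2, α, hα, h3⟩, hmin⟩ :=
    WellFounded.has_min (wellFounded_lt (α := Cardinal.{0})) _ hne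
  refine ⟨μ, h1, h2, fun β hβ => ?_, fun ν hν hνμ β hβ hFP => ?_⟩
  · obtain ⟨e⟩ := Cardinal.eq.1 (hα.trans hβ.symm)
    exact h3.map e
  · exact hmin ν ⟨hν, hνμ.le.trans h2, β, hβ, hFP⟩ hνμ

theorem dLe_continuum : DLe continuum :=
  ⟨Set.univ, fun g => ⟨g, Set.mem_univ _, Eventually.of_forall fun _ => le_rfl⟩, by
    rw [mk_univ, ← power_def, mk_nat]
    exact (aleph0_power_aleph0).le⟩

theorem le_of_dLe {κ μ : Cardinal.{0}}
    (hb : ∀ F : Set (ℕ → ℕ), #F < κ → ∃ g : ℕ → ℕ, ∀ f ∈ F, ∀ᶠ n in atTop, f n ≤ g n)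
    (hμ : DLe μ) : κ ≤ μ := by
  obtain ⟨F, hF, hFμ⟩ := hμ
  refine le_trans ?_ hFμ
  by_contra hcon
  push Not at hcon
  obtain ⟨g, hg⟩ := hb F hcon
  obtain ⟨f, hf, h1⟩ := hF (fun n => g n + 1)
  obtain ⟨n, hn1, hn2⟩ := (h1.and (hg f hf)).exists
  omega

end Pool.Agent.TH759.SM
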