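import Pool.Agent.TH759.SMComb

/-!
Closed discrete subsets of regular strongly star-Menger spaces and colourings; the bound for
`b = d = lambda^+`.
-/

set_option autoImplicit false
set_option linter.unusedSectionVars false
set_option linter.deprecated false

namespace Pool.Agent.TH759.SM

open Cardinal Ordinal Set Filter

/-- strongly star-Menger spaces -/
def SSM (X : Type) [TopologicalSpace X] : Prop :=
  ∀ U : ℕ → Set (Set X), (∀ n, ∀ u ∈ U n, IsOpen u) → (∀ n, ⋃₀ U n = Set.univ) →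
    ∃ F : ℕ → Set X, (∀ n, (F n).Finite) ∧ ∀ x : X, ∃ n, ∃ u ∈ U n, x ∈ u ∧ (u ∩ F n).Nonempty

theorem scheme {X : Type} [TopologicalSpace X] [T3Space X] (hX : SSM X) (D : Set X)
    (hD : IsClosed D) (hd : DiscreteTopology D) (A : ℕ → D → Finset D)
    (hA : ∀ n d, d ∉ A n d) :
    ∃ (N : ℕ → ℕ) (p : D → ℕ × ℕ), (∀ d, (p d).2 < N (p d).1) ∧
      ∀ d s, p d = p s → s ∉ A (p d).1 d := by
  classical
  -- neighbourhoods
  have h1 : ∀ d : D, ∃ V : Set X, IsOpen V ∧ (d : X) ∈ V ∧ ∀ s : D, (s : X) ∈ closure V → s = d := by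
    intro d
    have hcl : IsClosed (Subtype.val '' ({d}ᶜ : Set D)) :=
      (hD.isClosedEmbedding_subtypeVal.isClosed_iff_image_isClosed).1 (isClosed_discrete _)
    have hmem : (Subtype.val '' ({d}ᶜ : Set D))ᶜ ∈ nhds (d : X) := by
      refine hcl.isOpen_compl.mem_nhds ?_
      rintro ⟨s, hs, h⟩
      exact hs (Subtype.ext h)
    obtain ⟨t, ht, htc, hts⟩ := exists_mem_nhds_isClosed_subset hmem
    refine ⟨interior t, isOpen_interior, mem_interior_iff_mem_nhds.2 ht, fun s hs => ?_⟩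
    by_contra hne
    have h2 : (s : X) ∈ t := by
      have := closure_mono (interior_subset (s := t)) hs
      rwa [htc.closure_eq] at this
    exact hts h2 ⟨s, hne, rfl⟩
  choose V hVo hVm hVc using h1
  let O : D → ℕ → Set X := fun d n => V d \ ⋃ s ∈ A n d, closure (V s)
  have hOo : ∀ d n, IsOpen (O d n) := by
    intro d n
    refine (hVo d).sdiff ?_
    exact (A n d).finite_toSet.isClosed_biUnion fun s _ => isClosed_closure
  have hOm : ∀ d n, (d : X) ∈ O d n := by
    intro d n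
    refine ⟨hVm d, ?_⟩
    simp only [mem_iUnion, not_exists]
    intro s hs hcl
    have := hVc s d hcl
    rw [this] at hs
    exact hA n s hs
  have hOd : ∀ d n (s : D), (s : X) ∈ O d n → s = d := fun d n s hs => hVc d s (subset_closure hs.1)
  let U : ℕ → Set (Set X) := fun n => insert Dᶜ (range fun d => O d n)
  obtain ⟨F, hF, hcov⟩ := hX U (by
      rintro n u (rfl | ⟨d, rfl⟩)
      · exact hD.isOpen_compl
      · exact hOo d n) (by
      intro n
      refine eq_univ_of_forall fun x => ?_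
      by_cases hx : x ∈ D
      · exact ⟨O ⟨x, hx⟩ n, Or.inr ⟨⟨x, hx⟩, rfl⟩, hOm ⟨x, hx⟩ n⟩
      · exact ⟨Dᶜ, Or.inl rfl, hx⟩)
  have h2 : ∀ d : D, ∃ n, ∃ x ∈ F n, x ∈ O d n := by
    intro d
    obtain ⟨n, u, hu, hdu, x, hxu, hxF⟩ := hcov d
    rcases hu with rfl | ⟨d', rfl⟩
    · exact absurd d.2 hdu
    · have : d = d' := hOd d' n d hdu
      subst this
      exact ⟨n, x, hxF, hxu⟩
  choose n x hxF hxO using h2
  -- colours
  have h3 : ∀ m, ∃ e : X → ℕ, ∃ b : ℕ, (∀ y ∈ F m, e y < b) ∧ InjOn e (F m) := by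
    intro m
    obtain ⟨e, he⟩ := countable_iff_exists_injOn.1 (hF m).countable
    obtain ⟨b, hb⟩ := ((hF m).image e).bddAbove
    exact ⟨e, b + 1, fun y hy => Nat.lt_succ_of_le (hb (mem_image_of_mem e hy)), he⟩
  choose e b heb hei using h3
  refine ⟨b, fun d => (n d, e (n d) (x d)), fun d => heb _ _ (hxF d), ?_⟩
  intro d s hds hs
  simp only [Prod.mk.injEq] at hds hs
  obtain ⟨h4, h5⟩ := hds
  have h6 : x s ∈ F (n d) := by rw [h4]; exact hxF s
  have h7 : x d = x s := by
    refine hei (n d) (hxF d) h6 ?_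
    rw [h5, h4]
  have h8 := hxO d
  have h9 : x s ∈ V s := (hxO s).1
  refine h8.2 ?_
  simp only [mem_iUnion]
  exact ⟨s, hs, subset_closure (h7 ▸ h9)⟩

theorem bdd_ordToType {c : Cardinal.{0}} (hc : c.IsRegular) : Bdd c.ord.ToType := by
  intro S hS
  rw [mk_ord_toType] at hS
  by_contra hcon
  push Not at hcon
  have : IsCofinal S := fun x => by
    obtain ⟨s, hs, h⟩ := hcon x
    exact ⟨s, hs, h⟩
  have h2 := Order.cof_le this
  rw [cof_toType, hc.cof_ord] at h2
  exact absurd h2 (not_le.2 hS)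

/-- `b = d = lambda^+`, in the form used -/
theorem main_bound (lam : Cardinal.{0}) (hreg : lam.IsRegular) (h1 : aleph 1 < lam)
    (hb : ∀ F : Set (ℕ → ℕ), #F < Order.succ lam → ∃ g : ℕ → ℕ, ∀ f ∈ F, ∀ᶠ n in atTop, f n ≤ g n)
    (hd : ∃ F : Set (ℕ → ℕ), (∀ g : ℕ → ℕ, ∃ f ∈ F, ∀ᶠ n in atTop, g n ≤ f n) ∧
      #F ≤ Order.succ lam)
    (X : Type) [TopologicalSpace X] [T3Space X] (hX : SSM X) (D : Set X) (hD : IsClosed D)
    (hdisc : DiscreteTopology D) : #D < Order.succ lam := by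
  classical
  have hlam : ℵ₀ ≤ lam := hreg.aleph0_le
  have hregK : (Order.succ lam).IsRegular := isRegular_succ hlam
  let K : Type := (Order.succ lam).ord.ToType
  let L : Type := lam.ord.ToType
  let W : Type := (aleph 1).ord.ToType
  have hK : #K = Order.succ lam := mk_ord_toType _
  have hL : #L = lam := mk_ord_toType _
  have hW : #W = aleph 1 := mk_ord_toType _
  have : Nonempty K := mk_ne_zero_iff.1 (by rw [hK]; exact (Order.bot_lt_succ lam).ne')
  have : Nonempty W := mk_ne_zero_iff.1 (by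
    rw [hW]; exact (aleph0_pos.trans_le (aleph0_le_aleph 1)).ne')
  -- the dominating functions
  obtain ⟨F, hF, hFc⟩ := hd
  have hFne : F.Nonempty := by
    obtain ⟨f, hf, -⟩ := hF 0
    exact ⟨f, hf⟩
  obtain ⟨q, hq⟩ : ∃ q : K → (ℕ → ℕ), F ⊆ range q := by
    have h2 : #F ≤ #K := by rw [hK]; exact hFc
    obtain ⟨e⟩ := h2
    have : Nonempty F := hFne.to_subtype
    refine ⟨fun k => ((Function.invFun e k : F) : ℕ → ℕ), fun f hf => ⟨e ⟨f, hf⟩, ?_⟩⟩
    simp only [Function.leftInverse_invFun e.injective _]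
  have hIic : ∀ γ : K, #(Iic γ) < Order.succ lam := by
    intro γ
    have h2 : #(Iio γ) < Order.succ lam := mk_Iio_toType_ord_lt γ
    have h3 : Iic γ = insert γ (Iio γ) := by
      ext x
      simp [le_iff_eq_or_lt]
    rw [h3, Order.lt_succ_iff]
    exact mk_insert_le.trans ((add_le_add (Order.lt_succ_iff.1 h2)
      (one_le_aleph0.trans hlam)).trans (add_eq_self hlam).le)
  have hg : ∀ γ : K, ∃ g : ℕ → ℕ, ∀ γ' ≤ γ, ∀ᶠ n in atTop, q γ' n ≤ g n := by
    intro γ
    obtain ⟨g, hg⟩ := hb (q '' Iic γ) (mk_image_le.trans_lt (hIic γ))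
    exact ⟨g, fun γ' h => hg _ (mem_image_of_mem q h)⟩
  choose g hg using hg
  have hgd : ∀ h : ℕ → ℕ, ∃ γ₀, ∀ γ, γ₀ ≤ γ → ∀ᶠ n in atTop, h n ≤ g γ n := by
    intro h
    obtain ⟨f, hf, h2⟩ := hF h
    obtain ⟨γ₀, rfl⟩ := hq hf
    exact ⟨γ₀, fun γ hγ => (h2.and (hg γ γ₀ hγ)).mono fun n hn => hn.1.trans hn.2⟩
  -- the combinatorial theorem
  obtain ⟨f, hf⟩ := no_scheme (K := K) (L := L) (W := W)
    (fun γ => by
      rw [hL]
      exact Order.lt_succ_iff.1 (mk_Iio_toType_ord_lt γ))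
    (fun S hS => by
      rw [hL] at hS
      refine bdd_ordToType hregK S ?_
      rw [mk_ord_toType]
      exact Order.lt_succ_iff.2 hS)
    (bdd_ordToType hreg)
    (fun i => by rw [hL]; exact mk_Iio_toType_ord_lt i)
    (by rw [hW, hL]; exact h1)
    (fun w => by
      have h2 : #(Iio w) < aleph 1 := mk_Iio_toType_ord_lt w
      have h3 : #(Iio w) < Order.succ ℵ₀ := by rw [Cardinal.succ_aleph0]; exact h2
      exact mk_le_aleph0_iff.1 (Order.lt_succ_iff.1 h3))
    (fun S hS => by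
      refine bdd_ordToType isRegular_aleph_one S ?_
      have h3 : #S < Order.succ ℵ₀ := Order.lt_succ_iff.2 (mk_le_aleph0_iff.2 hS)
      rw [Cardinal.succ_aleph0] at h3
      exact h3.trans_eq (mk_ord_toType _).symm)
    hgd
  -- the index set has size `lambda^+`
  have hI : #(Idx K L) ≤ Order.succ lam := by
    have hs : ℵ₀ ≤ Order.succ lam := hlam.trans (Order.le_succ lam)
    simp only [Idx, mk_prod, Cardinal.lift_id, hK, hL, mk_nat]
    have e1 : lam * lam ≤ Order.succ lam := by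
      rw [mul_eq_self hlam]; exact Order.le_succ lam
    have e2 : Order.succ lam * (lam * lam) ≤ Order.succ lam :=
      (mul_le_mul' le_rfl e1).trans (mul_eq_self hs).le
    have e3 : Order.succ lam * ℵ₀ ≤ Order.succ lam :=
      (mul_le_mul' le_rfl hs).trans (mul_eq_self hs).le
    exact (mul_le_mul' e2 e3).trans (mul_eq_self hs).le
  by_contra hcon
  push Not at hcon
  obtain ⟨ι⟩ : Nonempty (Idx K L ↪ D) := hI.trans hcon
  let A : ℕ → D → Finset D := fun n d =>
    if h : ∃ x, ι x = d then (AA f g n h.choose).map ι else ∅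
  have hAι : ∀ n x, A n (ι x) = (AA f g n x).map ι := by
    intro n x
    have h : ∃ y, ι y = ι x := ⟨x, rfl⟩
    have e : A n (ι x) = (AA f g n h.choose).map ι := dif_pos h
    rw [e, ι.injective h.choose_spec]
  obtain ⟨N, p, hN, hp⟩ := scheme hX D hD hdisc A (by
    intro n d
    by_cases h : ∃ x, ι x = d
    · obtain ⟨x, rfl⟩ := h
      rw [hAι, Finset.mem_map' ι]
      exact notMem_AA f g n x
    · have e : A n d = ∅ := dif_neg h
      rw [e]
      exact Finset.notMem_empty d)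
  refine hf (fun x => p (ι x)) N (fun x => hN _) ?_
  intro x y hxy hy
  refine hp (ι x) (ι y) hxy ?_
  rw [hAι, Finset.mem_map' ι]
  exact hy

end Pool.Agent.TH759.SM
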